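import Pool.Agent.Helper824.GSRel

/-!
# Golod-Shafarevich ideals with some additional cubic relations
-/

set_option autoImplicit false

namespace Pool.Agent.P8H33.AM

open Module Pool.Agent.Helper824.GS

variable {K : Type} [Field K] {α : Type}

/-- the additional relations, in degree three -/
noncomputable def Ext (B : Finset (FreeMonoid α)) (m : ℕ) : Submodule K (FA K α) :=
  if m = 3 then Submodule.span K (mon '' (B : Set (FreeMonoid α))) else ⊥

open Classical in
/-- The relations `u_i (p)` together with the monomials in `B`. -/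
theorem exists_ideal' [Fintype α] (t : ℝ) (ht0 : 0 < t) (ht1 : t < 1)
    (B : Finset (FreeMonoid α)) (hB : ∀ v ∈ B, v.length = 3)
    (hd : 1 + (B.card : ℝ) * t ^ 3 < (Fintype.card α : ℝ) * t) (β : ℕ → Type)
    [∀ i, Fintype (β i)]
    (w : ∀ i, β i → ℕ) (hw : ∀ i b, 1 ≤ w i b) (hs : ∀ i, ∑ b, t ^ (w i b) < 1)
    (u : ∀ i, β i → FA K α) (hu : ∀ i b, Ord (w i b) (u i b)) :
    ∃ R : ℕ → Submodule K (FA K α), (∀ i, R i ≤ V K α i) ∧
      (∀ n, ∃ v : FreeMonoid α, v.length = n ∧ (mon v : FA K α) ∉ Idl R n) ∧
      (∀ i, ∃ N, ∀ p : Fin N → β i, ev (u i) p ∈ Jsub R) ∧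
      ∀ v ∈ B, (mon v : FA K α) ∈ Jsub R := by
  classical
  set c : ℝ := (Fintype.card α : ℝ) * t - 1 - (B.card : ℝ) * t ^ 3 with hc
  have hc0 : 0 < c := by linarith
  have ht1' : 0 < 1 - t := by linarith
  have hN := fun i => exists_N (∑ b, t ^ (w i b)) (c * (1 / 2) ^ (i + 1) * (1 - t))
    (Finset.sum_nonneg (fun b _ => by positivity)) (hs i) (by positivity) i
  choose N hN1 hN2 using hN
  have hRV : ∀ m, Rel β w u N m ⊔ Ext B m ≤ V K α m := by
    intro m
    refine sup_le (Rel_le_V β w u N m) ?_
    unfold Ext
    split_ifs with h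
    · subst h
      rw [Submodule.span_le]
      rintro _ ⟨v, hv, rfl⟩
      have := mon_mem_V K α v
      rwa [hB v hv] at this
    · exact bot_le
  have hExt : ∀ m, finrank K (Ext B m : Submodule K (FA K α)) ≤ if m = 3 then B.card else 0 := by
    intro m
    by_cases h : m = 3
    · have e0 : (Ext B m : Submodule K (FA K α)) =
          Submodule.span K (((B.image (mon (K := K)) : Finset (FA K α))) : Set (FA K α)) := by
        unfold Ext
        rw [if_pos h, Finset.coe_image]
      rw [if_pos h, e0]
      exact (finrank_span_finset_le_card _).trans Finset.card_image_le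
    · have e0 : (Ext B m : Submodule K (FA K α)) = ⊥ := by
        unfold Ext
        rw [if_neg h]
      rw [if_neg h, e0, finrank_bot]
  have hR : ∀ m, finrank K (Rel β w u N m ⊔ Ext B m : Submodule K (FA K α)) ≤
      ∑ i ∈ Finset.range m,
      (Finset.univ.filter (fun p : Fin (N i) → β i => wt (w i) p ≤ m)).card +
      if m = 3 then B.card else 0 := by
    intro m
    have f1 : FiniteDimensional K (Rel β w u N m) :=
      Submodule.finiteDimensional_of_le (Rel_le_V β w u N m)
    have f2 : FiniteDimensional K (Ext B m : Submodule K (FA K α)) :=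
      Submodule.finiteDimensional_of_le (le_trans le_sup_right (hRV m))
    refine le_trans (Submodule.finrank_add_le_finrank_add_finrank _ _) ?_
    exact Nat.add_le_add (finrank_Rel_le β w u N m) (hExt m)
  refine ⟨fun m => Rel β w u N m ⊔ Ext B m, hRV, ?_, ?_, ?_⟩
  · apply exists_mon_notMem hRV _ hR t ht0
    intro n
    have e1 : ∀ m, ((∑ i ∈ Finset.range m,
        (Finset.univ.filter (fun p : Fin (N i) → β i => wt (w i) p ≤ m)).card : ℕ) : ℝ) * t ^ m =
        ∑ i ∈ Finset.range m, ∑ p : Fin (N i) → β i, (if wt (w i) p ≤ m then t ^ m else 0) := by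
      intro m
      push_cast
      rw [Finset.sum_mul]
      apply Finset.sum_congr rfl
      intro i _
      rw [Finset.card_filter]
      push_cast
      rw [Finset.sum_mul]
      apply Finset.sum_congr rfl
      intro p _
      split_ifs <;> simp
    have e2 : ∑ i ∈ Finset.range n, (((∑ j ∈ Finset.range (i + 1),
        (Finset.univ.filter (fun p : Fin (N j) → β j => wt (w j) p ≤ i + 1)).card : ℕ) : ℝ)
          * t ^ (i + 1)) ≤ c := by
      calc _ = ∑ i ∈ Finset.range n, ∑ j ∈ Finset.range (i + 1), ∑ p : Fin (N j) → β j,
              (if wt (w j) p ≤ i + 1 then t ^ (i + 1) else 0) := by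
            apply Finset.sum_congr rfl
            intro i _
            exact e1 (i + 1)
        _ ≤ ∑ i ∈ Finset.range (n + 1), ∑ j ∈ Finset.range (n + 1), ∑ p : Fin (N j) → β j,
              (if wt (w j) p ≤ i then t ^ i else 0) := by
            rw [Finset.sum_range_succ' _ n]
            have h0 : 0 ≤ ∑ j ∈ Finset.range (n + 1), ∑ p : Fin (N j) → β j,
              (if wt (w j) p ≤ 0 then t ^ 0 else 0 : ℝ) := by
              apply Finset.sum_nonneg; intro j _
              apply Finset.sum_nonneg; intro p _
              split_ifs <;> positivity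
            have h1 : ∑ i ∈ Finset.range n, ∑ j ∈ Finset.range (i + 1), ∑ p : Fin (N j) → β j,
              (if wt (w j) p ≤ i + 1 then t ^ (i + 1) else 0) ≤ ∑ i ∈ Finset.range n,
              ∑ j ∈ Finset.range (n + 1), ∑ p : Fin (N j) → β j,
              (if wt (w j) p ≤ i + 1 then t ^ (i + 1) else 0) := by
              apply Finset.sum_le_sum
              intro i hi
              rw [Finset.mem_range] at hi
              apply Finset.sum_le_sum_of_subset_of_nonneg
              · intro j hj
                rw [Finset.mem_range] at *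
                omega
              · intro j _ _
                apply Finset.sum_nonneg; intro p _
                split_ifs <;> positivity
            linarith
        _ = ∑ j ∈ Finset.range (n + 1), ∑ p : Fin (N j) → β j, ∑ i ∈ Finset.range (n + 1),
              (if wt (w j) p ≤ i then t ^ i else 0) := by
            rw [Finset.sum_comm]
            apply Finset.sum_congr rfl
            intro j _
            rw [Finset.sum_comm]
        _ ≤ ∑ j ∈ Finset.range (n + 1), ∑ p : Fin (N j) → β j, t ^ (wt (w j) p) / (1 - t) := by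
            apply Finset.sum_le_sum; intro j _
            apply Finset.sum_le_sum; intro p _
            exact tail_le t ht0 ht1 _ _
        _ = ∑ j ∈ Finset.range (n + 1), (∑ b, t ^ (w j b)) ^ (N j) / (1 - t) := by
            apply Finset.sum_congr rfl; intro j _
            rw [← Finset.sum_div, sum_pow_wt]
        _ ≤ ∑ j ∈ Finset.range (n + 1), c * (1 / 2) ^ (j + 1) := by
            apply Finset.sum_le_sum; intro j _
            rw [div_le_iff₀ ht1']
            exact hN2 j
        _ ≤ c := by
            rw [← Finset.mul_sum]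
            have : ∑ i ∈ Finset.range (n + 1), ((1 : ℝ) / 2) ^ (i + 1) ≤ 1 := by
              simp only [pow_succ]
              rw [← Finset.sum_mul]
              have := sum_geometric_two_le (n + 1)
              linarith
            nlinarith
    have e4 : ∑ i ∈ Finset.range n, (((if i + 1 = 3 then B.card else 0 : ℕ) : ℝ) * t ^ (i + 1)) ≤
        (B.card : ℝ) * t ^ 3 := by
      have h1 : ∀ i ∈ Finset.range n, ((if i + 1 = 3 then B.card else 0 : ℕ) : ℝ) * t ^ (i + 1) =
          if i = 2 then (B.card : ℝ) * t ^ 3 else 0 := by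
        intro i _
        by_cases h : i = 2
        · subst h; simp
        · rw [if_neg h, if_neg (by omega)]; simp
      rw [Finset.sum_congr rfl h1, Finset.sum_ite_eq']
      split_ifs
      · exact le_rfl
      · positivity
    have e3 : 1 + (c + (B.card : ℝ) * t ^ 3) = (Fintype.card α : ℝ) * t := by rw [hc]; ring
    rw [← e3]
    have e5 : ∀ i ∈ Finset.range n, (((∑ j ∈ Finset.range (i + 1),
        (Finset.univ.filter (fun p : Fin (N j) → β j => wt (w j) p ≤ i + 1)).card +
        if i + 1 = 3 then B.card else 0 : ℕ) : ℝ) * t ^ (i + 1)) =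
        (((∑ j ∈ Finset.range (i + 1),
        (Finset.univ.filter (fun p : Fin (N j) → β j => wt (w j) p ≤ i + 1)).card : ℕ) : ℝ)
          * t ^ (i + 1)) + ((if i + 1 = 3 then B.card else 0 : ℕ) : ℝ) * t ^ (i + 1) := by
      intro i _
      rw [Nat.cast_add, add_mul]
    rw [Finset.sum_congr rfl e5, Finset.sum_add_distrib]
    linarith
  · intro i
    refine ⟨N i, fun p => ?_⟩
    obtain ⟨M, hM⟩ := exists_sum_pr K α (ev (u i) p)
    rw [hM M le_rfl]
    apply Submodule.sum_mem
    intro m _
    have hO := Ord.ev (u i) (w i) (hu i) p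
    by_cases hm : m < wt (w i) p
    · rw [hO m hm]; exact zero_mem _
    · have h1 := le_wt (w i) (hw i) p
      have h2 := hN1 i
      have h3 := mem_Rel β w u N m i (by omega) p (by omega)
      exact R_le_Jsub (R := fun m => Rel β w u N m ⊔ Ext B m) (by omega)
        (le_sup_left (a := Rel β w u N m) (b := Ext B m) h3)
  · intro v hv
    apply R_le_Jsub (R := fun m => Rel β w u N m ⊔ Ext B m) (n := 3) (by norm_num)
    apply le_sup_right (a := Rel β w u N 3) (b := Ext B 3)
    unfold Ext
    rw [if_pos rfl]
    exact Submodule.subset_span ⟨v, hv, rfl⟩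

end Pool.Agent.P8H33.AM
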