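import Pool.Agent.Helper784MS.RedA
import Pool.Agent.Helper784MS.RedC

/-!
# Groups generated by elements of prime order which pairwise generate groups of class two

If `x i` are elements of order `p` such that any two of them generate a group of class at most two,
and `D ^ 2 < p` where each `x i` commutes with all but at most `D` of the others, then the
Laplacian of the `x i` on `l^2 (G)` is bounded below if the `x i` generate an infinite group. The
proofs are those of `Helper784MS` with the unused hypotheses removed.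
-/

set_option autoImplicit false

open Filter Topology
open scoped InnerProductSpace

namespace Pool.Agent.P8H33.AM

open Pool.Agent.Helper784MS Pool.Agent.Helper784MS.Red Pool.Agent.H379R3.CS

/-- the hypotheses on the generators -/
structure Dat0 {G I : Type} [Group G] [Fintype I] (x : I → G) (p D : ℕ) : Prop where
  prime : p.Prime
  lt : D ^ 2 < p
  pow : ∀ i, x i ^ p = 1
  heis : ∀ i j, Commute (x i * x j * (x i)⁻¹ * (x j)⁻¹) (x i) ∧
    Commute (x i * x j * (x i)⁻¹ * (x j)⁻¹) (x j)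
  deg : ∀ i, ∃ s : Finset I, s.card ≤ D ∧ ∀ j, ¬ Commute (x i) (x j) → j ∈ s

theorem gap0 {F : Filter ℕ} {G I : Type} [Group G] [Fintype I] {E : ℕ → Type}
    [∀ n, NormedAddCommGroup (E n)] [∀ n, InnerProductSpace ℂ (E n)] [∀ n, CompleteSpace (E n)]
    {R : AsRep F G E} {x : I → G} {p D : ℕ} (h : Dat0 x p D)
    {e : ℝ} (he : 0 < e) (hep : e * e = (p : ℝ)⁻¹) (he1 : e ≤ 1) :
    specA1_Pos R ((∑ i, (1 - av p (MonoidAlgebra.of ℝ G (x i)))) *
      (∑ i, (1 - av p (MonoidAlgebra.of ℝ G (x i)))) -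
      (1 - e * D) • ∑ i, (1 - av p (MonoidAlgebra.of ℝ G (x i)))) := by
  classical
  set A : I → MonoidAlgebra ℝ G := fun i => 1 - av p (MonoidAlgebra.of ℝ G (x i)) with hA
  change specA1_Pos R ((∑ i, A i) * (∑ i, A i) - (1 - e * D) • ∑ i, A i)
  have aA : ∀ i, specA1_Adj R (A i) (A i) := fun i =>
    specA1_adj_sub specA1_adj_one (specA1_adj_av (h.pow i))
  have idem : ∀ i, A i * A i = A i := fun i => specA1_idem h.prime (h.pow i)
  have posA : ∀ i, specA1_Pos R (A i) := fun i => by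
    have := specA1_pos_star (aA i)
    rwa [idem] at this
  -- the pairs
  have pair : ∀ i j, specA1_Pos R (A i * A j + A j * A i +
      (if ¬ Commute (x i) (x j) then e else 0) • (A i + A j) -
      (if i = j then (2 : ℝ) else 0) • A i) := by
    intro i j
    by_cases hij : i = j
    · subst hij
      have hc : ¬ ¬ Commute (x i) (x i) := not_not.2 (Commute.refl _)
      rw [if_neg hc, if_pos rfl, zero_smul, add_zero, idem, two_smul, sub_self]
      exact specA1_pos_zero
    · rw [if_neg hij, zero_smul, sub_zero]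
      by_cases hc : Commute (x i) (x j)
      · rw [if_neg (not_not.2 hc), zero_smul, add_zero]
        refine specA1_commpair (idem i) (idem j) ?_ (aA i) (aA j)
        have h1 := specA1_avcomm p hc
        exact ((Commute.one_left _).sub_left ((Commute.one_right _).sub_right h1)).eq
      · rw [if_pos hc]
        exact specA1_heispair h.prime (h.pow i) (h.pow j) (h.heis i j).1 (h.heis i j).2 he hep he1
  have hdD : ∀ i, ((Finset.univ.filter fun j => ¬ Commute (x i) (x j)).card : ℝ) ≤ D := by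
    intro i
    obtain ⟨s, hs, hs'⟩ := h.deg i
    have h1 : (Finset.univ.filter fun j => ¬ Commute (x i) (x j)) ⊆ s := by
      intro j hj
      exact hs' j (Finset.mem_filter.1 hj).2
    have h2 := (Finset.card_le_card h1).trans hs
    exact_mod_cast h2
  have hsum : ∀ i, ∑ j, (if ¬ Commute (x i) (x j) then e else 0) =
      e * ((Finset.univ.filter fun j => ¬ Commute (x i) (x j)).card : ℝ) := by
    intro i
    rw [← Finset.sum_filter, Finset.sum_const, nsmul_eq_mul, mul_comm]
  have hsymm : ∀ i j, (if ¬ Commute (x i) (x j) then e else 0) =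
      (if ¬ Commute (x j) (x i) then e else 0) := by
    intro i j
    have : Commute (x j) (x i) ↔ Commute (x i) (x j) := ⟨fun h => h.symm, fun h => h.symm⟩
    simp only [this]
  have p1 := specA1_pos_smul (specA1_pos_sum Finset.univ fun i _ =>
    specA1_pos_sum Finset.univ fun j _ => pair i j) (c := 1 / 2) (by norm_num)
  rw [specA1_alg A (fun i j => if ¬ Commute (x i) (x j) then e else 0) hsymm] at p1
  have p2 : specA1_Pos R (∑ i, (e * (D - ((Finset.univ.filter fun j =>
      ¬ Commute (x i) (x j)).card : ℝ))) • A i) :=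
    specA1_pos_sum _ fun i _ => specA1_pos_smul (posA i)
      (mul_nonneg he.le (sub_nonneg.2 (hdD i)))
  have p3 := specA1_pos_add p1 p2
  simp only [hsum] at p3
  rw [specA1_alg2] at p3
  exact p3

theorem lap_gap0 {G I : Type} [Group G] [Fintype I] {x : I → G} {p D : ℕ}
    (h : Dat0 x p D) (hinf : Infinite (Subgroup.closure (Set.range x))) :
    ∃ κ : ℝ, 0 < κ ∧ ∀ ξ : L2 G, κ * ‖ξ‖ ≤ ‖LapR x p ξ‖ := by
  have hp1 : (1 : ℝ) ≤ (p : ℝ) := by exact_mod_cast h.prime.one_le
  have hp0 : (0 : ℝ) < (p : ℝ) := by linarith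
  set e : ℝ := Real.sqrt ((p : ℝ)⁻¹) with he
  have he0 : 0 < e := by rw [he]; positivity
  have hep : e * e = (p : ℝ)⁻¹ := Real.mul_self_sqrt (by positivity)
  have he1 : e ≤ 1 := by
    rw [he, Real.sqrt_le_one]
    exact inv_le_one_of_one_le₀ hp1
  have hD : e * D < 1 := by
    have h1 : (e * D) ^ 2 < 1 ^ 2 := by
      have h2 : (D : ℝ) ^ 2 < p := by exact_mod_cast h.lt
      have h3 : (e * D) ^ 2 = (p : ℝ)⁻¹ * (D : ℝ) ^ 2 := by rw [← hep]; ring
      rw [h3, one_pow, inv_mul_lt_iff₀ hp0, mul_one]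
      exact h2
    exact lt_of_pow_lt_pow_left₀ 2 zero_le_one h1
  set κ : ℝ := 1 - e * D with hκ
  have hκ0 : 0 < κ := by rw [hκ]; linarith
  set a : MonoidAlgebra ℝ G := ∑ i, (1 - av p (MonoidAlgebra.of ℝ G (x i))) with ha
  have hev : specA1_ev (r1_R G) 0 a = LapR x p := r1_ev x p
  have hgap : specA1_Pos (r1_R G) (a * a - κ • a) := gap0 h he0 hep he1
  have hadji : ∀ i, specA1_Adj (r1_R G) (1 - av p (MonoidAlgebra.of ℝ G (x i)))
      (1 - av p (MonoidAlgebra.of ℝ G (x i))) := fun i =>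
    specA1_adj_sub specA1_adj_one (specA1_adj_av (h.pow i))
  have hadj : specA1_Adj (r1_R G) a a := specA1_adj_sum _ fun i _ => hadji i
  have hstar : star (LapR x p) = LapR x p := by rw [← hev]; exact r1_adj hadj
  -- the norms
  have hnorm : ∀ b : MonoidAlgebra ℝ G, specA1_Adj (r1_R G) b b → ∀ ξ : L2 G,
      (⟪specA1_ev (r1_R G) 0 (b * b) ξ, ξ⟫_ℂ).re = ‖specA1_ev (r1_R G) 0 b ξ‖ ^ 2 := by
    intro b hb ξ
    have h1 := r1_adj hb
    rw [r1_mul]
    nth_rewrite 1 [← h1]
    rw [mul_apply_eq_comp, ContinuousLinearMap.star_eq_adjoint,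
      ContinuousLinearMap.adjoint_inner_left, inner_self_eq_norm_sq_to_K]
    norm_cast
  have hAi : ∀ i, ∀ ξ : L2 G,
      (⟪specA1_ev (r1_R G) 0 (1 - av p (MonoidAlgebra.of ℝ G (x i))) ξ, ξ⟫_ℂ).re =
      ‖specA1_ev (r1_R G) 0 (1 - av p (MonoidAlgebra.of ℝ G (x i))) ξ‖ ^ 2 := by
    intro i ξ
    have h1 := hnorm _ (hadji i) ξ
    rw [specA1_idem h.prime (h.pow i)] at h1
    exact h1
  have hsum : ∀ ξ : L2 G, (⟪LapR x p ξ, ξ⟫_ℂ).re =
      ∑ i, ‖specA1_ev (r1_R G) 0 (1 - av p (MonoidAlgebra.of ℝ G (x i))) ξ‖ ^ 2 := by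
    intro ξ
    rw [← hev, ha, specA1_ev_sum, sum_apply, sum_inner, Complex.re_sum]
    exact Finset.sum_congr rfl fun i _ => hAi i ξ
  have hpos : ∀ ξ : L2 G, 0 ≤ (⟪LapR x p ξ, ξ⟫_ℂ).re := by
    intro ξ
    rw [hsum]
    positivity
  have hgap' : ∀ ξ : L2 G, κ * (⟪LapR x p ξ, ξ⟫_ℂ).re ≤ ‖LapR x p ξ‖ ^ 2 := by
    intro ξ
    have h1 := r1_pos hgap ξ
    rw [specA1_ev_sub, sub_apply, inner_sub_left, Complex.sub_re,
      specA1_inner_smul, hnorm a hadj, hev] at h1
    linarith
  have hker : ∀ ξ : L2 G, LapR x p ξ = 0 → ξ = 0 := by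
    intro ξ hξ
    have h1 := hsum ξ
    rw [hξ, inner_zero_left, Complex.zero_re] at h1
    have h2 := (Finset.sum_eq_zero_iff_of_nonneg (fun i _ => by positivity)).1 h1.symm
    apply r1_zero hinf
    apply r1_inv
    intro i
    have h3 : specA1_ev (r1_R G) 0 (1 - av p (MonoidAlgebra.of ℝ G (x i))) ξ = 0 := by
      have h4 := h2 i (Finset.mem_univ i)
      exact norm_eq_zero.1 (pow_eq_zero_iff (two_ne_zero) |>.1 h4)
    rw [specA1_ev_sub, r1_one, sub_apply] at h3
    have h5 : ξ = specA1_ev (r1_R G) 0 (av p (MonoidAlgebra.of ℝ G (x i))) ξ := sub_eq_zero.1 h3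
    have h6 : MonoidAlgebra.of ℝ G (x i) * av p (MonoidAlgebra.of ℝ G (x i)) =
        av p (MonoidAlgebra.of ℝ G (x i)) := mul_av (by rw [← map_pow, h.pow i, map_one])
    have h7 : specA1_ev (r1_R G) 0 (MonoidAlgebra.of ℝ G (x i)) = shift (x i) := by
      rw [MonoidAlgebra.of_apply, specA1_ev_single]
      simp [r1_R]
    have h8 : shift (x i) (specA1_ev (r1_R G) 0 (av p (MonoidAlgebra.of ℝ G (x i))) ξ) =
        specA1_ev (r1_R G) 0 (av p (MonoidAlgebra.of ℝ G (x i))) ξ := by
      rw [← h7]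
      have h9 := r1_mul (MonoidAlgebra.of ℝ G (x i)) (av p (MonoidAlgebra.of ℝ G (x i)))
      rw [h6] at h9
      conv_rhs => rw [h9]
      rfl
    rw [← h5] at h8
    exact h8
  obtain ⟨hb, hu⟩ := r1_abs (LapR x p) hstar hpos hκ0 hgap' hker
  exact ⟨κ, hκ0, hb⟩

/-- an infinite group generated by such elements does not satisfy the condition of Folner -/
theorem not_folner {G I : Type} [Group G] [Fintype I] {x : I → G} {p D : ℕ}
    (h : Dat0 x p D) (hinf : Infinite (Subgroup.closure (Set.range x))) :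
    ¬ Pool.Agent.Helper784MS.Red.Amenable G := by
  obtain ⟨κ, hκ, h1⟩ := lap_gap0 h hinf
  exact not_amenable_of_gap h.prime.pos hκ h1

end Pool.Agent.P8H33.AM
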