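import Mathlib

/-!
# Units `1 + u` in rings with nilpotency conditions
-/

set_option autoImplicit false

namespace Pool.Agent.P8H33.AM

section comm
variable {R : Type} [Ring R]

theorem comm_val {g h : Rˣ} {u v : R} (hg : (g : R) = 1 + u) (hh : (h : R) = 1 + v)
    (uvv : u * v * v = 0) (uvu : u * v * u = 0) (vuv : v * u * v = 0) (vuu : v * u * u = 0) :
    ((g * h * g⁻¹ * h⁻¹ : Rˣ) : R) = 1 + (u * v - v * u) := by
  have h1 : (g * h * g⁻¹ * h⁻¹) * (h * g) = g * h := by group
  have h2 : ((g * h * g⁻¹ * h⁻¹ : Rˣ) : R) * ((h * g : Rˣ) : R) = ((g * h : Rˣ) : R) := by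
    rw [← Units.val_mul, h1]
  have h3 : (1 + (u * v - v * u)) * ((h * g : Rˣ) : R) = ((g * h : Rˣ) : R) := by
    rw [Units.val_mul, Units.val_mul, hg, hh]
    have e : (1 + (u * v - v * u)) * ((1 + v) * (1 + u)) = (1 + u) * (1 + v) +
        (u * v * v - v * u * v + u * v * u - v * u * u + (u * v * v) * u - (v * u * v) * u) := by
      noncomm_ring
    rw [e, uvv, uvu, vuv, vuu]
    simp
  exact (Units.mul_left_inj (h * g)).1 (h2.trans h3.symm)

theorem comm_left {g h : Rˣ} {u v : R} (hg : (g : R) = 1 + u) (hh : (h : R) = 1 + v)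
    (uvv : u * v * v = 0) (uvu : u * v * u = 0) (vuv : v * u * v = 0) (vuu : v * u * u = 0)
    (uuv : u * u * v = 0) : Commute (g * h * g⁻¹ * h⁻¹) g := by
  have h1 := comm_val hg hh uvv uvu vuv vuu
  generalize g * h * g⁻¹ * h⁻¹ = z at h1 ⊢
  apply Units.ext
  rw [Units.val_mul, Units.val_mul, h1, hg]
  have e1 : (1 + (u * v - v * u)) * (1 + u) = 1 + (u * v - v * u) + u + (u * v * u - v * u * u) := by
    noncomm_ring
  have e2 : (1 + u) * (1 + (u * v - v * u)) = 1 + (u * v - v * u) + u + (u * u * v - u * v * u) := by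
    noncomm_ring
  rw [e1, e2, uvu, vuu, uuv]

theorem comm_right {g h : Rˣ} {u v : R} (hg : (g : R) = 1 + u) (hh : (h : R) = 1 + v)
    (uvv : u * v * v = 0) (uvu : u * v * u = 0) (vuv : v * u * v = 0) (vuu : v * u * u = 0)
    (vvu : v * v * u = 0) : Commute (g * h * g⁻¹ * h⁻¹) h := by
  have h1 := comm_val hg hh uvv uvu vuv vuu
  generalize g * h * g⁻¹ * h⁻¹ = z at h1 ⊢
  apply Units.ext
  rw [Units.val_mul, Units.val_mul, h1, hh]
  have e1 : (1 + (u * v - v * u)) * (1 + v) = 1 + (u * v - v * u) + v + (u * v * v - v * u * v) := by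
    noncomm_ring
  have e2 : (1 + v) * (1 + (u * v - v * u)) = 1 + (u * v - v * u) + v + (v * u * v - v * v * u) := by
    noncomm_ring
  rw [e1, e2, uvv, vuv, vvu]

/-- the unit `1 + u` for `u ^ 3 = 0` -/
def unit3 (u : R) (hu : u * u * u = 0) : Rˣ where
  val := 1 + u
  inv := 1 - u + u * u
  val_inv := by
    have e : (1 + u) * (1 - u + u * u) = 1 + u * u * u := by noncomm_ring
    rw [e, hu, add_zero]
  inv_val := by
    have e : (1 - u + u * u) * (1 + u) = 1 + u * u * u := by noncomm_ring
    rw [e, hu, add_zero]

theorem unit3_pow (p : ℕ) [Fact p.Prime] [CharP R p] (hp : 3 ≤ p) (u : R) (hu : u * u * u = 0) :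
    unit3 u hu ^ p = 1 := by
  apply Units.ext
  rw [Units.val_pow_eq_pow_val, Units.val_one]
  change (1 + u) ^ p = 1
  rw [add_pow_char_of_commute p (Commute.one_left u), one_pow]
  have : u ^ p = 0 := by
    obtain ⟨k, rfl⟩ := Nat.exists_eq_add_of_le hp
    rw [pow_add, pow_succ, pow_two, hu, zero_mul]
  rw [this, add_zero]

end comm

section finite
variable (K : Type) [Field K] [Finite K] {R : Type} [Ring R] [Algebra K R]

include K in
/-- units `1 + y b` where the `y b` generate a nilpotent algebra generate a finite group -/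
theorem finite_closure {k : ℕ} (y : Fin k → R) (g : Fin k → Rˣ) (hg : ∀ b, (g b : R) = 1 + y b)
    (N : ℕ) (hN : ∀ l : List (Fin k), l.length = N → (l.map y).prod = 0) :
    Finite (Subgroup.closure (Set.range g)) := by
  classical
  set T : Set R := (fun l : List (Fin k) => (l.map y).prod) '' {l | l.length < N + 1} with hT
  have hTfin : T.Finite := (List.finite_length_lt (Fin k) (N + 1)).image _
  set W : Submodule K R := Submodule.span K T with hW
  have hWf : Module.Finite K W := Module.Finite.span_of_finite K hTfin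
  have hWfin : Finite W := Module.finite_of_finite K
  have h1W : (1 : R) ∈ W := Submodule.subset_span ⟨[], by simp, by simp⟩
  have hmulT : ∀ b, ∀ w ∈ W, w * y b ∈ W := by
    intro b w hw
    induction hw using Submodule.span_induction with
    | mem x hx =>
      obtain ⟨l, hl, rfl⟩ := hx
      have hl' : l.length < N + 1 := hl
      by_cases h : l.length = N
      · simp only
        rw [hN l h, zero_mul]
        exact W.zero_mem
      · refine Submodule.subset_span ⟨l ++ [b], ?_, ?_⟩
        · simp only [Set.mem_setOf_eq, List.length_append, List.length_cons, List.length_nil]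
          omega
        · simp
    | zero => rw [zero_mul]; exact W.zero_mem
    | add x y _ _ hx hy => rw [add_mul]; exact W.add_mem hx hy
    | smul a x _ hx => rw [smul_mul_assoc]; exact W.smul_mem _ hx
  have hmul : ∀ b, ∀ w ∈ W, w * (g b : R) ∈ W := by
    intro b w hw
    rw [hg, mul_add, mul_one]
    exact W.add_mem hw (hmulT b w hw)
  let P : Subgroup Rˣ :=
    { carrier := {v | ∀ w ∈ W, w * (v : R) ∈ W}
      mul_mem' := by
        intro a b ha hb w hw
        rw [Units.val_mul, ← mul_assoc]
        exact hb _ (ha w hw)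
      one_mem' := by
        intro w hw
        rw [Units.val_one, mul_one]
        exact hw
      inv_mem' := by
        intro a ha w hw
        let φ : W → W := fun x => ⟨(x : R) * (a : R), ha x x.2⟩
        have hinj : Function.Injective φ := by
          intro x y hxy
          have h1 : (x : R) * (a : R) = (y : R) * (a : R) := congrArg Subtype.val hxy
          exact Subtype.ext ((Units.mul_left_inj a).1 h1)
        obtain ⟨x, hx⟩ := (Finite.injective_iff_surjective.1 hinj) ⟨w, hw⟩
        have h1 : (x : R) * (a : R) = w := congrArg Subtype.val hx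
        rw [← h1, mul_assoc, Units.mul_inv, mul_one]
        exact x.2 }
  have hle : Subgroup.closure (Set.range g) ≤ P := by
    rw [Subgroup.closure_le]
    rintro _ ⟨b, rfl⟩
    exact hmul b
  have hP : Finite P := by
    refine Finite.of_injective (fun v : P => (⟨((v : Rˣ) : R), ?_⟩ : W)) ?_
    · have := v.2 1 h1W
      rwa [one_mul] at this
    · intro v v' h
      exact Subtype.ext (Units.ext (congrArg Subtype.val h))
  exact Finite.of_injective _ (Subgroup.inclusion_injective hle)

/-- a finite group of units spans a finite subalgebra -/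
theorem not_finite_units (H : Subgroup Rˣ) (f : ℕ → R) (hf : Function.Injective f)
    (hfm : ∀ c, f c ∈ Algebra.adjoin K (Units.val '' (H : Set Rˣ))) : Infinite H := by
  rw [← not_finite_iff_infinite]
  intro hfin
  have hH : (H : Set Rˣ).Finite := hfin
  have h1 : Subalgebra.toSubmodule (Algebra.adjoin K (Units.val '' (H : Set Rˣ))) =
      Submodule.span K (Units.val '' (H : Set Rˣ)) := by
    rw [Algebra.adjoin_eq_span]
    congr 1
    have : Submonoid.closure (Units.val '' (H : Set Rˣ)) =
        H.toSubmonoid.map (Units.coeHom R) := by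
      have h2 : (Units.val '' (H : Set Rˣ)) = (H.toSubmonoid.map (Units.coeHom R) : Set R) := rfl
      rw [h2, Submonoid.closure_eq]
    rw [this]
    rfl
  have h3 : Module.Finite K (Submodule.span K (Units.val '' (H : Set Rˣ))) :=
    Module.Finite.span_of_finite K (hH.image _)
  have h4 : Finite (Submodule.span K (Units.val '' (H : Set Rˣ))) := Module.finite_of_finite K
  rw [← h1] at h4
  have h5 : Finite (Algebra.adjoin K (Units.val '' (H : Set Rˣ))) := h4
  exact not_finite_iff_infinite.2 (inferInstance : Infinite ℕ)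
    (Finite.of_injective (fun c => (⟨f c, hfm c⟩ : Algebra.adjoin K (Units.val '' (H : Set Rˣ))))
      (fun c d h => hf (congrArg Subtype.val h)))

end finite

end Pool.Agent.P8H33.AM
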