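import Pool.Agent.P8H33.AM.Alg1
import Pool.Agent.P8H33.AM.Ring
import Pool.Agent.P8H33.AM.Gap

/-!
# A nonamenable group with small finitely generated subgroups of its deep subgroups
-/

set_option autoImplicit false

namespace Pool.Agent.P8H33.AM

open Module Pool.Agent.Helper824.GS

open Classical in
/-- the words of length three with at most two different letters -/
noncomputable def B3 (n : ℕ) : Finset (FreeMonoid (Fin n)) :=
  (Finset.univ.image fun y : Fin n × Fin n => FreeMonoid.ofList [y.1, y.1, y.2]) ∪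
  ((Finset.univ.image fun y : Fin n × Fin n => FreeMonoid.ofList [y.1, y.2, y.2]) ∪
  (Finset.univ.image fun y : Fin n × Fin n => FreeMonoid.ofList [y.1, y.2, y.1]))

theorem B3_card (n : ℕ) : (B3 n).card ≤ 3 * (n * n) := by
  classical
  unfold B3
  have h : (Finset.univ : Finset (Fin n × Fin n)).card = n * n := by simp
  refine (Finset.card_union_le _ _).trans ?_
  have h1 := (Finset.card_union_le
    (Finset.univ.image fun y : Fin n × Fin n => FreeMonoid.ofList [y.1, y.2, y.2])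
    (Finset.univ.image fun y : Fin n × Fin n => FreeMonoid.ofList [y.1, y.2, y.1]))
  have h2 := Finset.card_image_le (s := (Finset.univ : Finset (Fin n × Fin n)))
    (f := fun y : Fin n × Fin n => FreeMonoid.ofList [y.1, y.1, y.2])
  have h3 := Finset.card_image_le (s := (Finset.univ : Finset (Fin n × Fin n)))
    (f := fun y : Fin n × Fin n => FreeMonoid.ofList [y.1, y.2, y.2])
  have h4 := Finset.card_image_le (s := (Finset.univ : Finset (Fin n × Fin n)))
    (f := fun y : Fin n × Fin n => FreeMonoid.ofList [y.1, y.2, y.1])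
  omega

theorem B3_len (n : ℕ) : ∀ v ∈ B3 n, v.length = 3 := by
  classical
  intro v hv
  unfold B3 at hv
  simp only [Finset.mem_union, Finset.mem_image, Finset.mem_univ, true_and] at hv
  rcases hv with ⟨y, rfl⟩ | ⟨y, rfl⟩ | ⟨y, rfl⟩ <;> rfl

theorem mem_B3 {n : ℕ} (a b c : Fin n) (h : a = b ∨ b = c ∨ a = c) :
    FreeMonoid.ofList [a, b, c] ∈ B3 n := by
  classical
  unfold B3
  simp only [Finset.mem_union, Finset.mem_image, Finset.mem_univ, true_and]
  rcases h with rfl | rfl | rfl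
  · exact Or.inl ⟨(a, c), rfl⟩
  · exact Or.inr (Or.inl ⟨(a, b), rfl⟩)
  · exact Or.inr (Or.inr ⟨(a, b), rfl⟩)

theorem of_three {α : Type} (a b c : α) :
    FreeMonoid.of a * FreeMonoid.of b * FreeMonoid.of c = FreeMonoid.ofList [a, b, c] := rfl

/-- the relations -/
theorem exists_R (K : Type) [Field K] [Countable K] (d : ℕ) (t : ℝ) (ht0 : 0 < t) (ht1 : t < 1)
    (hd : 1 + 3 * ((d : ℝ) * d) * t ^ 3 < d * t) :
    ∃ (m : ℕ → ℕ) (R : ℕ → Submodule K (FA K (Fin d))), (∀ i, R i ≤ V K (Fin d) i) ∧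
      (∀ n, ∃ v : FreeMonoid (Fin d), v.length = n ∧ (mon v : FA K (Fin d)) ∉ Idl R n) ∧
      (∀ (k : ℕ) (u : Fin k → FA K (Fin d)), (∀ b, Ord (m k) (u b)) →
        ∃ N, ∀ q : Fin N → Fin k, ev u q ∈ Jsub R) ∧
      ∀ v ∈ B3 d, (mon v : FA K (Fin d)) ∈ Jsub R := by
  classical
  have hm : ∀ k : ℕ, ∃ m : ℕ, 1 ≤ m ∧ (k : ℝ) * t ^ m < 1 := by
    intro k
    obtain ⟨m, hm⟩ := exists_pow_lt_of_lt_one (show (0 : ℝ) < 1 / (k + 1) by positivity)
      ht1
    refine ⟨m + 1, by omega, ?_⟩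
    have hk : (0 : ℝ) < k + 1 := by positivity
    have h1 : t ^ (m + 1) ≤ t ^ m :=
      pow_le_pow_of_le_one ht0.le ht1.le (by omega)
    have h2 : t ^ (m + 1) < 1 / (k + 1) := lt_of_le_of_lt h1 hm
    rw [lt_div_iff₀ hk] at h2
    have h3 : (0 : ℝ) < t ^ (m + 1) := by positivity
    nlinarith
  choose m hm1 hm2 using hm
  have hc1 : Countable (FreeMonoid (Fin d)) := inferInstanceAs (Countable (List (Fin d)))
  have hc2 : Countable (FA K (Fin d)) :=
    (MonoidAlgebra.coeffEquiv (R := K) (M := FreeMonoid (Fin d))).injective.countable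
  have hne : Nonempty (Σ k : ℕ, {u : Fin k → FA K (Fin d) // ∀ b, Ord (m k) (u b)}) :=
    ⟨⟨0, ⟨fun _ => 0, fun _ => Ord.zero' _⟩⟩⟩
  obtain ⟨e, he⟩ := exists_surjective_nat
    (Σ k : ℕ, {u : Fin k → FA K (Fin d) // ∀ b, Ord (m k) (u b)})
  obtain ⟨R, h1, h2, h3, h4⟩ := exists_ideal' (K := K) (α := Fin d) t ht0 ht1 (B3 d) (B3_len d)
    (by
      have h := B3_card d
      have h' : ((B3 d).card : ℝ) ≤ 3 * ((d : ℝ) * d) := by exact_mod_cast h
      have h'' := mul_le_mul_of_nonneg_right h' (show 0 ≤ t ^ 3 by positivity)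
      rw [Fintype.card_fin]
      linarith)
    (fun i => Fin (e i).1) (fun i _ => m (e i).1) (fun i _ => hm1 _)
    (fun i => by
      rw [Finset.sum_const, Finset.card_univ, Fintype.card_fin, nsmul_eq_mul]
      exact hm2 _)
    (fun i => (e i).2.1) (fun i b => (e i).2.2 b)
  refine ⟨m, R, h1, h2, ?_, h4⟩
  intro k u hu
  obtain ⟨i, hi⟩ := he ⟨k, ⟨u, hu⟩⟩
  have h5 := h3 i
  rw [hi] at h5
  exact h5

section quot

variable {K : Type} [Field K] {d : ℕ} (R : ℕ → Submodule K (FA K (Fin d)))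

/-- the quotient algebra -/
abbrev Q : Type := FA K (Fin d) ⧸ J R

/-- the quotient map -/
noncomputable def q : FA K (Fin d) →ₐ[K] Q R := Ideal.Quotient.mkₐ K (J R)

theorem q_eq_zero {a : FA K (Fin d)} : q R a = 0 ↔ a ∈ Jsub R := by
  change Ideal.Quotient.mk (J R) a = 0 ↔ _
  rw [Ideal.Quotient.eq_zero_iff_mem]
  rfl

theorem q_surj : Function.Surjective (q R) := Ideal.Quotient.mk_surjective

/-- the letters -/
noncomputable def X (i : Fin d) : Q R := q R (mon (FreeMonoid.of i))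

theorem X_cube (hB : ∀ v ∈ B3 d, (mon v : FA K (Fin d)) ∈ Jsub R) (a b c : Fin d)
    (h : a = b ∨ b = c ∨ a = c) : X R a * X R b * X R c = 0 := by
  unfold X
  rw [← map_mul, ← map_mul, mon_mul, mon_mul, of_three, q_eq_zero]
  exact hB _ (mem_B3 a b c h)

/-- the subgroup of the units congruent to one up to degree `m` -/
noncomputable def Nm (m : ℕ) : Subgroup (Q R)ˣ where
  carrier := {v | ∃ u : FA K (Fin d), Ord m u ∧ (v : Q R) = 1 + q R u}
  mul_mem' := by
    rintro a b ⟨u, hu, ha⟩ ⟨u', hu', hb⟩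
    refine ⟨u + u' + u * u', (hu.add hu').add (Ord.mul_left u hu'), ?_⟩
    rw [Units.val_mul, ha, hb, map_add, map_add, map_mul]
    noncomm_ring
  one_mem' := ⟨0, Ord.zero' m, by simp⟩
  inv_mem' := by
    rintro a ⟨u, hu, ha⟩
    obtain ⟨b, hb⟩ := q_surj R ((a⁻¹ : (Q R)ˣ) : Q R)
    refine ⟨-(b * u), (Ord.mul_left b hu).neg, ?_⟩
    have h1 : ((a⁻¹ : (Q R)ˣ) : Q R) * (a : Q R) = 1 := Units.inv_mul a
    rw [ha, mul_add, mul_one] at h1
    rw [map_neg, map_mul, hb]
    rw [← h1]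
    abel

theorem Nm_normal (m : ℕ) : (Nm R m).Normal := by
  refine ⟨?_⟩
  rintro n ⟨u, hu, hn⟩ g
  obtain ⟨b, hb⟩ := q_surj R (g : Q R)
  obtain ⟨b', hb'⟩ := q_surj R ((g⁻¹ : (Q R)ˣ) : Q R)
  refine ⟨b * u * b', Ord.mul_right b' (Ord.mul_left b hu), ?_⟩
  rw [Units.val_mul, Units.val_mul, hn, map_mul, map_mul, hb, hb', mul_add, mul_one, add_mul,
    Units.mul_inv]

theorem Nm_finiteIndex [Finite K] (m : ℕ) : (Nm R m).FiniteIndex := by
  classical
  have hfin : ∀ j : ℕ, Finite (V K (Fin d) j) := fun j => Module.finite_of_finite K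
  have hq : ∀ c : (Q R)ˣ ⧸ Nm R m, ∃ f : FA K (Fin d), q R f = (c.out : Q R) :=
    fun c => q_surj R _
  choose F hF using hq
  let τ : (Q R)ˣ ⧸ Nm R m → ((j : Fin m) → V K (Fin d) j) :=
    fun c j => ⟨pr K (Fin d) j (F c), pr_mem K (Fin d) j (F c)⟩
  have hinj : Function.Injective τ := by
    intro c c' h
    have h1 : Ord m (F c' - F c) := by
      intro j hj
      have h2 := congrArg Subtype.val (congrFun h ⟨j, hj⟩)
      have h3 : pr K (Fin d) j (F c) = pr K (Fin d) j (F c') := h2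
      rw [map_sub, h3, sub_self]
    obtain ⟨b, hb⟩ := q_surj R ((c.out⁻¹ : (Q R)ˣ) : Q R)
    rw [← c.out_eq, ← c'.out_eq]
    rw [Quotient.eq''] 
    rw [QuotientGroup.leftRel_apply]
    refine ⟨b * (F c' - F c), Ord.mul_left b h1, ?_⟩
    rw [Units.val_mul, map_mul, hb, map_sub, hF, hF, mul_sub, Units.inv_mul]
    abel
  have : Finite ((Q R)ˣ ⧸ Nm R m) := Finite.of_injective τ hinj
  exact Subgroup.finiteIndex_of_finite_quotient

theorem Nm_small [Finite K] {m k : ℕ} (hk : ∀ u : Fin k → FA K (Fin d), (∀ b, Ord m (u b)) →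
    ∃ N, ∀ p : Fin N → Fin k, ev u p ∈ Jsub R) (f : Fin k → (Q R)ˣ) (hf : ∀ b, f b ∈ Nm R m) :
    Finite (Subgroup.closure (Set.range f)) := by
  have hf' : ∀ b, ∃ u : FA K (Fin d), Ord m u ∧ (f b : Q R) = 1 + q R u := hf
  choose u hu hu2 using hf'
  obtain ⟨N, hN⟩ := hk u hu
  refine finite_closure K (fun b => q R (u b)) f hu2 N ?_
  intro l hl
  have h1 : (l.map fun b => q R (u b)).prod = q R ((l.map u).prod) := by
    rw [map_list_prod, List.map_map]
    rfl
  rw [h1, q_eq_zero]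
  subst hl
  have h2 := hN l.get
  unfold ev at h2
  rwa [List.ofFn_get] at h2

end quot

/-- **The group.** -/
theorem exists_group' (d : ℕ) (t : ℝ) (ht0 : 0 < t) (ht1 : t < 1)
    (hd : 1 + 3 * ((d : ℝ) * d) * t ^ 3 < d * t) :
    ∃ (p : ℕ) (G : Type) (_ : Group G) (x : Fin d → G), Dat0 x p d ∧ Subgroup.closure (Set.range x) = ⊤ ∧ Infinite G ∧
    ∀ k : ℕ, ∃ N : Subgroup G, N.Normal ∧ N.FiniteIndex ∧ ∀ f : Fin k → G, (∀ i, f i ∈ N) →
      Finite (Subgroup.closure (Set.range f)) := by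
  classical
  obtain ⟨p, hp1, hp⟩ := Nat.exists_infinite_primes (d ^ 2 + 3)
  have hfact : Fact p.Prime := ⟨hp⟩
  obtain ⟨m, R, hR1, hR2, hR3, hR4⟩ := exists_R (ZMod p) d t ht0 ht1 hd
  -- the ring is infinite
  have hR2' := hR2
  choose v hv1 hv2 using hR2'
  have hinj : Function.Injective (fun j => q R (mon (v j) : FA (ZMod p) (Fin d))) := by
    intro i j hij
    by_contra hne
    have h1 : (mon (v i) : FA (ZMod p) (Fin d)) - mon (v j) ∈ Jsub R := by
      rw [← q_eq_zero, map_sub]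
      exact sub_eq_zero.2 hij
    have h2 := pr_mem_Idl hR1 h1 i
    rw [map_sub, pr_mon, pr_mon, if_pos (hv1 i), if_neg (by rw [hv1 j]; exact Ne.symm hne),
      sub_zero] at h2
    exact hv2 i h2
  have hnt : Nontrivial (Q R) := ⟨⟨_, _, hinj.ne (show (0 : ℕ) ≠ 1 by norm_num)⟩⟩
  have hchar : CharP (Q R) p :=
    charP_of_injective_algebraMap (algebraMap (ZMod p) (Q R)).injective p
  have hcube := X_cube R hR4
  let g : Fin d → (Q R)ˣ := fun i => unit3 (X R i) (hcube i i i (Or.inl rfl))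
  have hg : ∀ i, ((g i : (Q R)ˣ) : Q R) = 1 + X R i := fun i => rfl
  set H : Subgroup (Q R)ˣ := Subgroup.closure (Set.range g) with hH
  have hgH : ∀ i, g i ∈ H := fun i => Subgroup.subset_closure ⟨i, rfl⟩
  let x : Fin d → H := fun i => ⟨g i, hgH i⟩
  have hadj : ∀ w : FreeMonoid (Fin d), q R (mon w : FA (ZMod p) (Fin d)) ∈
      Algebra.adjoin (ZMod p) (Units.val '' (H : Set (Q R)ˣ)) := by
    intro w
    induction w using FreeMonoid.inductionOn' with
    | one => rw [mon_one, map_one]; exact Subalgebra.one_mem _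
    | of_mul i w ih =>
      rw [← mon_mul, map_mul]
      refine Subalgebra.mul_mem _ ?_ ih
      have h1 : ((g i : (Q R)ˣ) : Q R) ∈
          Algebra.adjoin (ZMod p) (Units.val '' (H : Set (Q R)ˣ)) :=
        Algebra.subset_adjoin ⟨g i, hgH i, rfl⟩
      have h2 : q R (mon (FreeMonoid.of i)) = ((g i : (Q R)ˣ) : Q R) - 1 := by
        rw [hg]
        unfold X
        abel
      rw [h2]
      exact Subalgebra.sub_mem _ h1 (Subalgebra.one_mem _)
  have hHinf : Infinite H := not_finite_units (ZMod p) H _ hinj fun c => hadj _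
  have hclo : Subgroup.closure (Set.range x) = ⊤ := by
    have h1 : Set.range x = ((↑) : H → (Q R)ˣ) ⁻¹' (Set.range g) := by
      ext y
      constructor
      · rintro ⟨i, rfl⟩
        exact ⟨i, rfl⟩
      · rintro ⟨i, hi⟩
        exact ⟨i, Subtype.ext hi⟩
    rw [h1]
    exact Subgroup.closure_closure_coe_preimage
  refine ⟨p, H, inferInstance, x, ⟨hp, by omega, ?_, ?_, ?_⟩, hclo, hHinf, ?_⟩
  · intro i
    apply Subtype.ext
    exact unit3_pow p (by omega) (X R i) (hcube i i i (Or.inl rfl))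
  · intro i j
    constructor
    · have h1 := comm_left (hg i) (hg j) (hcube i j j (Or.inr (Or.inl rfl)))
        (hcube i j i (Or.inr (Or.inr rfl))) (hcube j i j (Or.inr (Or.inr rfl)))
        (hcube j i i (Or.inr (Or.inl rfl))) (hcube i i j (Or.inl rfl))
      exact Subtype.ext h1.eq
    · have h1 := comm_right (hg i) (hg j) (hcube i j j (Or.inr (Or.inl rfl)))
        (hcube i j i (Or.inr (Or.inr rfl))) (hcube j i j (Or.inr (Or.inr rfl)))
        (hcube j i i (Or.inr (Or.inl rfl))) (hcube j j i (Or.inl rfl))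
      exact Subtype.ext h1.eq
  · intro i
    exact ⟨Finset.univ, by simp, fun j _ => Finset.mem_univ j⟩
  · intro k
    have hfi := Nm_finiteIndex R (m k)
    have hno := Nm_normal R (m k)
    refine ⟨(Nm R (m k)).subgroupOf H, inferInstance, inferInstance, ?_⟩
    intro f hf
    have h1 := Nm_small R (hR3 k) (fun b => (f b : (Q R)ˣ)) (fun b => hf b)
    have h2 : (Subgroup.closure (Set.range f)).map H.subtype =
        Subgroup.closure (Set.range fun b => (f b : (Q R)ˣ)) := by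
      rw [MonoidHom.map_closure]
      congr 1
      rw [← Set.range_comp]
      rfl
    have h4 : ∀ y : Subgroup.closure (Set.range f), ((y : H) : (Q R)ˣ) ∈
        Subgroup.closure (Set.range fun b => (f b : (Q R)ˣ)) := by
      intro y
      rw [← h2]
      exact ⟨(y : H), y.2, rfl⟩
    refine Finite.of_injective (fun y : Subgroup.closure (Set.range f) =>
      (⟨((y : H) : (Q R)ˣ), h4 y⟩ : Subgroup.closure (Set.range fun b => (f b : (Q R)ˣ)))) ?_
    intro a b hab
    exact Subtype.ext (Subtype.ext (Subtype.mk.inj hab))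

theorem exists_group : ∃ (p d : ℕ) (G : Type) (_ : Group G) (x : Fin d → G), Dat0 x p d ∧
    Subgroup.closure (Set.range x) = ⊤ ∧ Infinite G ∧
    ∀ k : ℕ, ∃ N : Subgroup G, N.Normal ∧ N.FiniteIndex ∧ ∀ f : Fin k → G, (∀ i, f i ∈ N) →
      Finite (Subgroup.closure (Set.range f)) := by
  obtain ⟨p, h⟩ := exists_group' 100 (1 / 30) (by norm_num) (by norm_num) (by norm_num)
  exact ⟨p, 100, h⟩

end Pool.Agent.P8H33.AM
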