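import Pool.Agent.P8H33.AM.Gap
import Pool.Agent.H883B.Stmts

/-!
# The failure of the condition of Folner excludes an invariant mean
-/

set_option autoImplicit false

open scoped Pointwise

namespace Pool.Agent.P8H33.AM

open Pool.Agent.H883B (IsAmenable)

section
variable {G : Type} [Group G]

/-- finite additivity -/
theorem mean_biUnion {ι : Type} (m : Set G → ℝ) (h0 : m ∅ = 0)
    (hadd : ∀ A B, Disjoint A B → m (A ∪ B) = m A + m B) (s : Finset ι) (A : ι → Set G)
    (hA : ∀ i ∈ s, ∀ j ∈ s, i ≠ j → Disjoint (A i) (A j)) :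
    m (⋃ i ∈ s, A i) = ∑ i ∈ s, m (A i) := by
  classical
  induction s using Finset.induction_on with
  | empty => simp [h0]
  | insert a s ha ih =>
    rw [Finset.set_biUnion_insert, hadd, Finset.sum_insert ha, ih]
    · intro i hi j hj hij
      exact hA i (Finset.mem_insert_of_mem hi) j (Finset.mem_insert_of_mem hj) hij
    · rw [Set.disjoint_iUnion₂_right]
      intro i hi
      refine hA a (Finset.mem_insert_self _ _) i (Finset.mem_insert_of_mem hi) ?_
      rintro rfl
      exact ha hi

/-- if `|T F| ≥ 2 |F|` for all finite sets `F`, there is no invariant mean -/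
theorem not_mean_of_doubling [DecidableEq G] (T : Finset G)
    (hT : ∀ F : Finset G, 2 * F.card ≤ (T * F).card) : ¬ IsAmenable G := by
  classical
  rintro ⟨m, hpos, huniv, hadd, hinv⟩
  have h0 : m ∅ = 0 := by
    have := hadd ∅ ∅ (by simp)
    rw [Set.union_empty] at this
    linarith
  -- Hall's theorem
  have hhall : ∀ A : Finset (G × Bool), A.card ≤ (A.biUnion fun y => T * {y.1}).card := by
    intro A
    have h1 : (A.biUnion fun y => T * {y.1}) = T * A.image Prod.fst := by
      ext z
      simp only [Finset.mem_biUnion, Finset.mem_mul, Finset.mem_image, Finset.mem_singleton]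
      constructor
      · rintro ⟨y, hy, t, ht, w, rfl, rfl⟩
        exact ⟨t, ht, y.1, ⟨y, hy, rfl⟩, rfl⟩
      · rintro ⟨t, ht, w, ⟨y, hy, rfl⟩, rfl⟩
        exact ⟨y, hy, t, ht, y.1, rfl, rfl⟩
    rw [h1]
    refine le_trans ?_ (hT _)
    have h2 : A ⊆ (A.image Prod.fst) ×ˢ (Finset.univ : Finset Bool) := by
      intro y hy
      rw [Finset.mem_product]
      exact ⟨Finset.mem_image_of_mem _ hy, Finset.mem_univ _⟩
    have h3 := Finset.card_le_card h2
    rw [Finset.card_product, Finset.card_univ, Fintype.card_bool] at h3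
    omega
  obtain ⟨f, hf, hfT⟩ := (Finset.all_card_le_biUnion_card_iff_exists_injective
    (fun y : G × Bool => T * {y.1})).1 hhall
  have hfT' : ∀ g b, f (g, b) * g⁻¹ ∈ T := by
    intro g b
    have := hfT (g, b)
    rw [Finset.mem_mul] at this
    obtain ⟨t, ht, w, hw, h⟩ := this
    rw [Finset.mem_singleton] at hw
    subst hw
    rw [← h, mul_inv_cancel_right]
    exact ht
  set A : Bool → G → Set G := fun b s => {g | f (g, b) * g⁻¹ = s} with hA
  have hone : ∀ b, ∑ s ∈ T, m (A b s) = 1 := by
    intro b
    rw [← mean_biUnion m h0 hadd T (A b), ← huniv]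
    · congr 1
      ext g
      simp only [Set.mem_iUnion, Set.mem_univ, iff_true, hA, Set.mem_setOf_eq]
      exact ⟨_, hfT' g b, rfl⟩
    · intro s _ s' _ hss
      rw [Set.disjoint_left]
      intro g hg hg'
      simp only [hA, Set.mem_setOf_eq] at hg hg'
      exact hss (hg.symm.trans hg')
  have htwo : ∑ y ∈ (Finset.univ : Finset Bool) ×ˢ T, m ((fun x => y.2 * x) '' A y.1 y.2) = 2 := by
    rw [Finset.sum_product]
    have : ∀ b ∈ (Finset.univ : Finset Bool),
        ∑ s ∈ T, m ((fun x => s * x) '' A b s) = 1 := by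
      intro b _
      rw [← hone b]
      exact Finset.sum_congr rfl fun s _ => hinv s _
    rw [Finset.sum_congr rfl this]
    simp
  have hle : ∑ y ∈ (Finset.univ : Finset Bool) ×ˢ T, m ((fun x => y.2 * x) '' A y.1 y.2) ≤ 1 := by
    rw [← mean_biUnion m h0 hadd _ (fun y : Bool × G => (fun x => y.2 * x) '' A y.1 y.2)]
    · set U : Set G := ⋃ y ∈ (Finset.univ : Finset Bool) ×ˢ T,
        (fun x => y.2 * x) '' A y.1 y.2 with hU
      have h1 := hadd U Uᶜ disjoint_compl_right
      rw [Set.union_compl_self, huniv] at h1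
      have h2 := hpos Uᶜ
      linarith
    · rintro ⟨b, s⟩ _ ⟨b', s'⟩ _ hne
      rw [Set.disjoint_left]
      rintro z ⟨g, hg, rfl⟩ ⟨g', hg', h⟩
      simp only [hA, Set.mem_setOf_eq] at hg hg' h
      have e1 : f (g, b) = s * g := by rw [← hg, inv_mul_cancel_right]
      have e2 : f (g', b') = s' * g' := by rw [← hg', inv_mul_cancel_right]
      have e3 := hf (e2.trans (h.trans e1.symm))
      rw [Prod.mk.injEq] at e3
      obtain ⟨e4, e5⟩ := e3
      apply hne
      rw [Prod.mk.injEq]
      refine ⟨e5.symm, ?_⟩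
      rw [← hg, ← hg', e4, e5]
  linarith

/-- an amenable group satisfies the condition of Folner -/
theorem folner_of_mean (h : IsAmenable G) : Pool.Agent.Helper784MS.Red.Amenable G := by
  classical
  by_contra hne
  unfold Pool.Agent.Helper784MS.Red.Amenable at hne
  push Not at hne
  obtain ⟨S, ε, hε, hS⟩ := hne
  set S' : Finset G := insert 1 S with hS'
  have hstep : ∀ F : Finset G, (1 + ε) * F.card ≤ ((S' * F).card : ℝ) := by
    intro F
    rcases F.eq_empty_or_nonempty with rfl | hF
    · simp
    obtain ⟨s, hs, hs2⟩ := hS F hF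
    have h1 : F ∪ (F.filter fun g => s * g ∉ F).image (s * ·) ⊆ S' * F := by
      intro z hz
      rw [Finset.mem_mul]
      rcases Finset.mem_union.1 hz with hz | hz
      · exact ⟨1, Finset.mem_insert_self _ _, z, hz, one_mul z⟩
      · obtain ⟨g, hg, rfl⟩ := Finset.mem_image.1 hz
        exact ⟨s, Finset.mem_insert_of_mem hs, g, (Finset.mem_filter.1 hg).1, rfl⟩
    have h2 := Finset.card_le_card h1
    rw [Finset.card_union_of_disjoint, Finset.card_image_of_injective _ (mul_right_injective s)]
      at h2
    · have h3 : ((F.card + (F.filter fun g => s * g ∉ F).card : ℕ) : ℝ) ≤ ((S' * F).card : ℝ) := by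
        exact_mod_cast h2
      push_cast at h3
      have h4 : ε * F.card ≤ ((F.filter fun g => s * g ∉ F).card : ℝ) := by
        convert hs2.le
      linarith
    · rw [Finset.disjoint_right]
      intro z hz
      obtain ⟨g, hg, rfl⟩ := Finset.mem_image.1 hz
      exact (Finset.mem_filter.1 hg).2
  have hpow : ∀ (k : ℕ) (F : Finset G), (1 + ε) ^ k * F.card ≤ ((S' ^ k * F).card : ℝ) := by
    intro k
    induction k with
    | zero => intro F; simp
    | succ k ih =>
      intro F
      rw [pow_succ' S', mul_assoc]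
      refine le_trans ?_ (hstep _)
      rw [pow_succ', mul_assoc]
      exact mul_le_mul_of_nonneg_left (ih F) (by linarith)
  obtain ⟨k, hk⟩ := pow_unbounded_of_one_lt (2 : ℝ) (show 1 < 1 + ε by linarith)
  refine not_mean_of_doubling (S' ^ k) (fun F => ?_) h
  have h1 := hpow k F
  have h2 : (2 : ℝ) * F.card ≤ ((S' ^ k * F).card : ℝ) :=
    le_trans (mul_le_mul_of_nonneg_right hk.le (Nat.cast_nonneg _)) h1
  exact_mod_cast h2

/-- **Theorem.** An infinite group generated by elements of order `p` as in `Dat0` is not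
amenable. -/
theorem not_isAmenable {I : Type} [Fintype I] {x : I → G} {p D : ℕ}
    (h : Dat0 x p D) (hinf : Infinite (Subgroup.closure (Set.range x))) : ¬ IsAmenable G :=
  fun hA => not_folner h hinf (folner_of_mean hA)

end

end Pool.Agent.P8H33.AM
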