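import Pool.Agent.P8H33.AM.Alg2
import Pool.Agent.P8H33.AM.Mean
import Pool.Agent.H883B.TaskExt

/-!
# Packing indices in groups with small finitely generated subgroups
-/

set_option autoImplicit false

namespace Pool.Agent.P8H33.AM

open Pool.Agent.H883B (IsAmenable Packs pack)

section
variable {G : Type} [Group G]

/-- the averaging argument in a finite subgroup -/
theorem key (n : ℕ) (hn : 1 ≤ n) (N : Subgroup G)
    (hN : ∀ f : Fin n × Fin (n + 1) → G, (∀ i, f i ∈ N) →
      Finite (Subgroup.closure (Set.range f)))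
    (c : G → Fin n) (E : Fin n → Fin (n + 1) → G)
    (hEN : ∀ i a b, (E i a)⁻¹ * E i b ∈ N)
    (hpack : ∀ i a b, a ≠ b → ∀ x y, c x = i → c y = i → E i a * x ≠ E i b * y) : False := by
  classical
  set f : Fin n × Fin (n + 1) → G := fun y => (E y.1 0)⁻¹ * E y.1 y.2 with hf
  have hfin := hN f (fun y => hEN _ _ _)
  set K := Subgroup.closure (Set.range f) with hK
  have : Fintype K := Fintype.ofFinite K
  have hfK : ∀ y, f y ∈ K := fun y => Subgroup.subset_closure ⟨y, rfl⟩
  have h1 : ∀ i : Fin n, (n + 1) * (Finset.univ.filter fun x : K => c x = i).card ≤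
      Fintype.card K := by
    intro i
    have h2 : Function.Injective (fun y : Fin (n + 1) × {x : K // c x = i} =>
        (⟨f (i, y.1) * (y.2.1 : G), K.mul_mem (hfK _) y.2.1.2⟩ : K)) := by
      rintro ⟨b, x, hx⟩ ⟨b', x', hx'⟩ h
      have h3 : f (i, b) * (x : G) = f (i, b') * (x' : G) := congrArg Subtype.val h
      have h4 : E i b * (x : G) = E i b' * (x' : G) := by
        simp only [hf, mul_assoc, mul_right_inj] at h3
        exact h3
      by_cases hb : b = b'
      · subst hb
        have h5 : (x : G) = (x' : G) := mul_left_cancel h4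
        have h6 : x = x' := Subtype.ext h5
        subst h6
        rfl
      · exact absurd h4 (hpack i b b' hb x x' hx hx')
    have h3 := Fintype.card_le_of_injective _ h2
    rw [Fintype.card_prod, Fintype.card_fin, Fintype.card_subtype] at h3
    exact h3
  have h2 : ∑ i : Fin n, (Finset.univ.filter fun x : K => c x = i).card = Fintype.card K := by
    rw [← Finset.card_univ (α := K), Finset.card_eq_sum_card_fiberwise (f := fun x : K => c x)
      (t := Finset.univ) (fun x _ => Finset.mem_coe.2 (Finset.mem_univ _))]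
  have h3 : (n + 1) * Fintype.card K ≤ n * Fintype.card K := by
    rw [← h2, Finset.mul_sum]
    refine (Finset.sum_le_sum fun i _ => h1 i).trans ?_
    rw [Finset.sum_const, Finset.card_univ, Fintype.card_fin, smul_eq_mul, h2]
  have h4 : 0 < Fintype.card K := Fintype.card_pos
  nlinarith

/-- a large packing gives a finite one of given size -/
theorem exists_packs {A : Set G} {M : ℕ} (h : ¬ pack A ≤ M) :
    ∃ E : Finset G, E.card = M + 1 ∧ Packs (E : Set G) A := by
  unfold Pool.Agent.H883B.pack at h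
  rw [iSup_le_iff] at h
  push Not at h
  obtain ⟨⟨E, hE⟩, h1⟩ := h
  have h2 : ((M + 1 : ℕ) : ℕ∞) ≤ E.encard := by
    have := Order.add_one_le_of_lt h1
    exact_mod_cast this
  obtain ⟨F, hF, hFc⟩ := Set.exists_subset_encard_eq h2
  have hfin : F.Finite := Set.finite_of_encard_eq_coe hFc
  refine ⟨hfin.toFinset, ?_, ?_⟩
  · have h3 := hfin.encard_eq_coe_toFinset_card
    rw [hFc] at h3
    exact_mod_cast h3.symm
  · rw [Set.Finite.coe_toFinset]
    intro x hx y hy hxy
    exact hE x (hF hx) y (hF hy) hxy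

/-- from a finite packing to an injective family without collisions -/
theorem pack_family {A : Set G} {E : Finset G} (hE : Packs (E : Set G) A) {k : ℕ}
    (F : Finset G) (hF : F ⊆ E) (hk : F.card = k) :
    ∃ e : Fin k → G, (∀ a, e a ∈ F) ∧
      ∀ a b, a ≠ b → ∀ x y, x ∈ A → y ∈ A → e a * x ≠ e b * y := by
  classical
  subst hk
  refine ⟨fun a => ((F.equivFin.symm a : F) : G), fun a => (F.equivFin.symm a).2, ?_⟩
  intro a b hab x y hx hy h
  have h1 : ((F.equivFin.symm a : F) : G) ≠ ((F.equivFin.symm b : F) : G) := by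
    intro h2
    exact hab (F.equivFin.symm.injective (Subtype.ext h2))
  have h2 := hE _ (hF (F.equivFin.symm a).2) _ (hF (F.equivFin.symm b).2) h1
  rw [Set.disjoint_left] at h2
  exact h2 ⟨x, hx, rfl⟩ ⟨y, hy, h.symm⟩

/-- **Property (e), with a bound.** If `N` is a subgroup of finite index all of whose `n (n + 1)`
generated subgroups are finite, every partition into `n` cells has a cell of packing index at
most `n [G : N]`. -/
theorem pack_le_index (n : ℕ) (hn : 1 ≤ n) (N : Subgroup G) [N.FiniteIndex]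
    (hN : ∀ f : Fin n × Fin (n + 1) → G, (∀ i, f i ∈ N) →
      Finite (Subgroup.closure (Set.range f)))
    (c : G → Fin n) : ∃ i, pack {x | c x = i} ≤ ((n * N.index : ℕ) : ℕ∞) := by
  classical
  by_contra hcon
  push Not at hcon
  have h1 : ∀ i, ∃ e : Fin (n + 1) → G, (∀ a b, (e a)⁻¹ * e b ∈ N) ∧
      ∀ a b, a ≠ b → ∀ x y, c x = i → c y = i → e a * x ≠ e b * y := by
    intro i
    obtain ⟨E, hE, hP⟩ := exists_packs (A := {x | c x = i}) (not_le.2 (hcon i))
    have : Fintype (G ⧸ N) := Fintype.ofFinite _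
    have hidx : (Finset.univ : Finset (G ⧸ N)).card = N.index := by
      rw [Finset.card_univ, ← Nat.card_eq_fintype_card]
      rfl
    obtain ⟨q, -, hq⟩ := Finset.exists_lt_card_fiber_of_mul_lt_card_of_maps_to
      (s := E) (t := (Finset.univ : Finset (G ⧸ N))) (f := fun x => (x : G ⧸ N)) (n := n)
      (fun a _ => Finset.mem_univ _) (by rw [hidx, hE]; nlinarith)
    obtain ⟨F, hF, hFc⟩ := Finset.exists_subset_card_eq (Nat.succ_le_of_lt hq)
    obtain ⟨e, he, he2⟩ := pack_family hP F (hF.trans (Finset.filter_subset _ _)) hFc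
    refine ⟨e, ?_, he2⟩
    intro a b
    have ha := (Finset.mem_filter.1 (hF (he a))).2
    have hb := (Finset.mem_filter.1 (hF (he b))).2
    exact QuotientGroup.eq.1 (ha.trans hb.symm)
  choose E hE1 hE2 using h1
  exact key n hn N hN c E hE1 hE2

/-- a maximal packing covers -/
theorem cov_le {A : Set G} {n : ℕ} (hA : A.Nonempty) (h : pack A ≤ n) :
    ∃ F : Finset G, F.card ≤ n ∧ ∀ g : G, ∃ f ∈ F, ∃ a ∈ A, ∃ b ∈ A, g = f * (a * b⁻¹) := by
  classical
  have hb : ∀ E : Finset G, Packs (E : Set G) A → E.card ≤ n := by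
    intro E hE
    have h1 : (E : Set G).encard ≤ pack A :=
      le_iSup (fun E : {E : Set G // Packs E A} => (E : Set G).encard) ⟨(E : Set G), hE⟩
    rw [Set.encard_coe_eq_coe_finsetCard] at h1
    exact_mod_cast h1.trans h
  have h0 : ∃ k, ∃ E : Finset G, Packs (E : Set G) A ∧ n - E.card = k :=
    ⟨_, ∅, fun x hx => by simp at hx, rfl⟩
  obtain ⟨E, hE, hEk⟩ := Nat.find_spec h0
  refine ⟨E, hb E hE, ?_⟩
  intro g
  by_contra hcon
  push Not at hcon
  have hg : g ∉ E := by
    intro hg
    obtain ⟨a, ha⟩ := hA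
    exact hcon g hg a ha a ha (by rw [mul_inv_cancel, mul_one])
  have hdis : ∀ e ∈ E, Disjoint ((fun a => g * a) '' A) ((fun a => e * a) '' A) := by
    intro e he
    rw [Set.disjoint_left]
    rintro z ⟨b, hb', rfl⟩ ⟨a, ha, h1⟩
    apply hcon e he a ha b hb'
    rw [← mul_assoc]
    exact eq_mul_inv_of_mul_eq h1.symm
  have hP : Packs ((insert g E : Finset G) : Set G) A := by
    intro x hx y hy hxy
    rw [Finset.coe_insert, Set.mem_insert_iff] at hx hy
    rcases hx with rfl | hx
    · rcases hy with rfl | hy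
      · exact absurd rfl hxy
      · exact hdis y hy
    · rcases hy with rfl | hy
      · exact (hdis x hx).symm
      · exact hE x hx y hy hxy
  have h1 := hb _ hP
  rw [Finset.card_insert_of_notMem hg] at h1
  have h2 := Nat.find_min h0 (m := n - (insert g E).card) (by
    rw [← hEk, Finset.card_insert_of_notMem hg]
    omega)
  exact h2 ⟨_, hP, rfl⟩

/-- the empty set has infinite packing index in an infinite group -/
theorem nonempty_of_pack [Infinite G] {A : Set G} {n : ℕ} (h : pack A ≤ n) : A.Nonempty := by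
  by_contra hne
  rw [Set.not_nonempty_iff_eq_empty] at hne
  subst hne
  have h1 : (Set.univ : Set G).encard ≤ pack (∅ : Set G) :=
    le_iSup (fun E : {E : Set G // Packs E (∅ : Set G)} => (E : Set G).encard)
      ⟨Set.univ, fun x _ y _ _ => by simp⟩
  have h2 : (Set.univ : Set G).encard = ⊤ := by
    rw [Set.encard_eq_top_iff]
    exact Set.infinite_univ
  rw [h2] at h1
  have h3 := h1.trans h
  rw [top_le_iff] at h3
  exact ENat.coe_ne_top n h3

/-- finite groups are amenable -/
theorem amenable_of_finite (Q : Type) [Group Q] [Finite Q] : IsAmenable Q := by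
  classical
  have : Fintype Q := Fintype.ofFinite Q
  refine ⟨fun A => (A.ncard : ℝ) / Nat.card Q, fun A => by positivity, ?_, ?_, ?_⟩
  · simp only [Set.ncard_univ]
    exact div_self (by exact_mod_cast Nat.card_pos.ne')
  · intro A B hAB
    simp only [Set.ncard_union_eq hAB (Set.toFinite A) (Set.toFinite B)]
    push_cast
    ring
  · intro g A
    simp only [Set.ncard_image_of_injective A (mul_right_injective g)]

/-- fewer generators -/
theorem small_mono {N : Subgroup G} {k l : ℕ} (hkl : l ≤ k)
    (hN : ∀ f : Fin k → G, (∀ i, f i ∈ N) → Finite (Subgroup.closure (Set.range f)))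
    (f : Fin l → G) (hf : ∀ i, f i ∈ N) : Finite (Subgroup.closure (Set.range f)) := by
  set f' : Fin k → G := fun i => if h : (i : ℕ) < l then f ⟨i, h⟩ else 1 with hf'
  have h1 : ∀ i, f' i ∈ N := by
    intro i
    simp only [hf']
    split_ifs with h
    · exact hf _
    · exact N.one_mem
  have h2 := hN f' h1
  have h3 : Subgroup.closure (Set.range f) ≤ Subgroup.closure (Set.range f') := by
    rw [Subgroup.closure_le]
    rintro _ ⟨i, rfl⟩
    refine Subgroup.subset_closure ⟨⟨i, lt_of_lt_of_le i.2 hkl⟩, ?_⟩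
    simp only [hf']
    rw [dif_pos i.2]
  exact Finite.of_injective _ (Subgroup.inclusion_injective h3)

/-- reindexing -/
theorem small_prod {N : Subgroup G} {k a b : ℕ} (hk : a * b ≤ k)
    (hN : ∀ f : Fin k → G, (∀ i, f i ∈ N) → Finite (Subgroup.closure (Set.range f)))
    (f : Fin a × Fin b → G) (hf : ∀ i, f i ∈ N) : Finite (Subgroup.closure (Set.range f)) := by
  have h1 := small_mono hk hN (fun i => f (finProdFinEquiv.symm i)) (fun i => hf _)
  have h2 : Set.range (fun i : Fin (a * b) => f (finProdFinEquiv.symm i)) = Set.range f := by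
    have : (fun i : Fin (a * b) => f (finProdFinEquiv.symm i)) = f ∘ finProdFinEquiv.symm := rfl
    rw [this, Set.range_comp, Equiv.range_eq_univ, Set.image_univ]
  rwa [h2] at h1

end

/-- **The main theorem.** -/
theorem main : ∃ (G : Type) (_ : Group G), ¬ IsAmenable G ∧ Group.FG G ∧ Monoid.IsTorsion G ∧
    (∀ n : ℕ, 1 ≤ n → ∃ M : ℕ, ∀ c : G → Fin n, ∃ i, pack {x | c x = i} ≤ M) ∧
    ∀ N : ℕ, ∃ H : Subgroup G, H.Normal ∧ H.FiniteIndex ∧ ¬ IsAmenable H ∧
      ∀ n : ℕ, 1 ≤ n → n ≤ N → ∀ c : H → Fin n, ∃ i, pack {x | c x = i} ≤ n ∧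
        ∃ F : Finset H, F.card ≤ n ∧ ∀ g : H, ∃ f ∈ F, ∃ a b : H, c a = i ∧ c b = i ∧
          g = f * (a * b⁻¹) := by
  classical
  obtain ⟨p, d, G, _, x, hx, hclo, hinf, hsmall⟩ := exists_group
  have hna : ¬ IsAmenable G := by
    refine not_isAmenable hx ?_
    rw [hclo]
    exact (Subgroup.topEquiv (G := G)).toEquiv.infinite_iff.2 hinf
  refine ⟨G, inferInstance, hna, ?_, ?_, ?_, ?_⟩
  · rw [Group.fg_iff]
    exact ⟨Set.range x, hclo, Set.finite_range x⟩
  · intro g
    obtain ⟨N, hNn, hNi, hN⟩ := hsmall 1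
    have h1 : g ^ N.index ∈ N := by
      exact Subgroup.pow_index_mem N g
    have h2 := hN (fun _ => g ^ N.index) (fun _ => h1)
    have h3 : g ^ N.index ∈ Subgroup.closure (Set.range fun _ : Fin 1 => g ^ N.index) :=
      Subgroup.subset_closure ⟨0, rfl⟩
    have h4 := isOfFinOrder_of_finite
      (⟨g ^ N.index, h3⟩ : Subgroup.closure (Set.range fun _ : Fin 1 => g ^ N.index))
    have h5 : IsOfFinOrder (g ^ N.index) := by
      have := MonoidHom.isOfFinOrder (Subgroup.subtype _) h4
      exact this
    exact (isOfFinOrder_pow.1 h5).resolve_right (Subgroup.FiniteIndex.index_ne_zero)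
  · intro n hn
    obtain ⟨N, hNn, hNi, hN⟩ := hsmall (n * (n + 1))
    exact ⟨n * N.index, fun c => pack_le_index n hn N (small_prod le_rfl hN) c⟩
  · intro N0
    obtain ⟨N, hNn, hNi, hN⟩ := hsmall (N0 * (N0 + 1))
    have hnaN : ¬ IsAmenable N := by
      intro h
      exact hna (Pool.Agent.H883B.taskExt G N h (amenable_of_finite (G ⧸ N)))
    have hNinf : Infinite N := by
      rw [← not_finite_iff_infinite]
      intro hfin
      exact hnaN (amenable_of_finite N)
    refine ⟨N, hNn, hNi, hnaN, ?_⟩
    intro n hn hnN c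
    have hNN : ∀ f : Fin n × Fin (n + 1) → N, (∀ i, f i ∈ (⊤ : Subgroup N)) →
        Finite (Subgroup.closure (Set.range f)) := by
      intro f _
      have h1 : n * (n + 1) ≤ N0 * (N0 + 1) := Nat.mul_le_mul hnN (by omega)
      have h2 := small_prod h1 hN (fun y => (f y : G)) (fun y => (f y).2)
      have h3 : (Subgroup.closure (Set.range f)).map N.subtype =
          Subgroup.closure (Set.range fun y => (f y : G)) := by
        rw [MonoidHom.map_closure]
        congr 1
        rw [← Set.range_comp]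
        rfl
      have h4 : ∀ y : Subgroup.closure (Set.range f), ((y : N) : G) ∈
          Subgroup.closure (Set.range fun b => (f b : G)) := by
        intro y
        rw [← h3]
        exact ⟨(y : N), y.2, rfl⟩
      refine Finite.of_injective (fun y : Subgroup.closure (Set.range f) =>
        (⟨((y : N) : G), h4 y⟩ : Subgroup.closure (Set.range fun b => (f b : G)))) ?_
      intro a b hab
      exact Subtype.ext (Subtype.ext (Subtype.mk.inj hab))
    obtain ⟨i, hi⟩ := pack_le_index n hn (⊤ : Subgroup N) hNN c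
    rw [Subgroup.index_top, mul_one] at hi
    refine ⟨i, hi, ?_⟩
    obtain ⟨F, hF, hF2⟩ := cov_le (nonempty_of_pack hi) hi
    refine ⟨F, hF, fun g => ?_⟩
    obtain ⟨f, hf, a, ha, b, hb, h⟩ := hF2 g
    exact ⟨f, hf, a, b, ha, hb, h⟩

end Pool.Agent.P8H33.AM
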